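import Mathlib

/-!
# The Tate conjecture for divisors and complete intersections in products of surfaces: definitions

`K` stands for `ℚ_ℓ`; the twist by `ℚ_ℓ(1)` is made invisible by a choice of a generator of `ℤ_ℓ(1)`
over the algebraic closure of the finite field.
-/

universe u w

namespace Pool.Agent.T6.H15.TD

/-- The even cohomology ring of a variety together with the trace map, which is defined on the top
degree and extended by zero to the other degrees. -/
structure Coh (K : Type w) [Field K] where
  R : Type w
  [ring : CommRing R]
  [alg : Algebra K R]
  tr : R →ₗ[K] K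

attribute [instance] Coh.ring Coh.alg

namespace Coh

variable {K : Type w} [Field K]

/-- The product of two classes. -/
def mul (C : Coh K) (x y : C.R) : C.R := x * y

/-- The trace of a class. -/
def trace (C : Coh K) (x : C.R) : K := C.tr x

/-- The ring homomorphisms (for the pullback by a morphism). -/
abbrev Hom (C C' : Coh K) : Type w := C.R →ₐ[K] C'.R

/-- `f(x)` -/
def ap {C C' : Coh K} (f : Hom C C') (x : C.R) : C'.R := f x

/-- `f(x) + g(y)` -/
def ap₂ {C C' C'' : Coh K} (f : Hom C C'') (g : Hom C' C'') (x : C.R) (y : C'.R) : C''.R :=
  ap f x + ap g y

end Coh

/-- The data which we consider for a smooth projective surface over a finite field with a very ample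
divisor class. -/
structure Surface (K : Type w) [Field K] where
  /-- the cardinality of the finite field -/
  q : ℕ
  /-- the degree: the self-intersection of the very ample divisor class -/
  deg : ℕ
  /-- the cohomology group `H^2` -/
  V : Type w
  [grp : AddCommGroup V]
  [mod : Module K V]
  [fin : Module.Finite K V]
  /-- the even cohomology ring -/
  C : Coh K
  /-- the embedding of `H^2` in the even cohomology ring -/
  emb : V →ₗ[K] C.R
  /-- the operation `F^*` of the Frobenius morphism on `H^2` -/
  F : V →ₗ[K] V
  /-- the span of the classes of the divisors defined over the extension of degree `n` of the field -/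
  D : ℕ → Submodule K V
  /-- the very ample divisor class -/
  h : V

attribute [instance] Surface.grp Surface.mod Surface.fin

namespace Surface

variable {K : Type w} [Field K] (X : Surface K)

/-- The image of `x` in the even cohomology ring. -/
def incl (x : X.V) : X.C.R := X.emb x

/-- The product `x y z` in the even cohomology ring. -/
def triple (x y z : X.V) : X.C.R := X.C.mul (X.C.mul (X.incl x) (X.incl y)) (X.incl z)

/-- The intersection number of two classes in `H^2(X)`. -/
def pair (x y : X.V) : K := X.C.trace (X.C.mul (X.incl x) (X.incl y))

/-- `F^* x` -/
def frob (x : X.V) : X.V := X.F x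

/-- `x` is in the span of the classes of the divisors over the extension of degree `n`. -/
def InD (n : ℕ) (x : X.V) : Prop := x ∈ X.D n

/-- `q^n x` -/
def scale (n : ℕ) (x : X.V) : X.V := (X.q : K) ^ n • x

/-- The basic properties of the cohomology of a surface: `H^6 = 0`, Poincaré duality, the Frobenius
morphism operates by `q^n` on the classes of divisors over the extension of degree `n`, and such a
class is in the span of the classes of divisors over the given field if it is fixed by the Galois
group. -/
structure IsSurface : Prop where
  two_le : 2 ≤ X.q
  vanish : ∀ x y z, X.triple x y z = 0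
  duality : ∀ x, (∀ y, X.pair x y = 0) → x = 0
  deg_pos : 1 ≤ X.deg
  degree : X.pair X.h X.h = X.deg
  polarization : X.InD 1 X.h
  extension : ∀ n : ℕ, 1 ≤ n → ∀ x, X.InD 1 x → X.InD n x
  frobenius : ∀ n : ℕ, 1 ≤ n → ∀ x, X.InD n x → X.frob^[n] x = X.scale n x
  descent : ∀ n : ℕ, 1 ≤ n → ∀ x, X.InD n x → X.frob x = X.scale 1 x → X.InD 1 x

/-- The multiplicity of `q` as a root of the characteristic polynomial of `F^*` on `H^2(X)`. -/
noncomputable def mult : ℕ := X.F.charpoly.rootMultiplicity (X.q : K)

/-- The dimension of the span of the classes of the divisors on `X`. -/
noncomputable def picard : ℕ := Module.finrank K (X.D 1)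

/-- The defect of the Tate conjecture for the divisors on `X`. -/
noncomputable def defect : ℝ := X.mult - X.picard

/-- The Tate conjecture for the divisors on `X`: every class in `H^2(X)(1)` which is fixed by the Galois
group is in the span of the classes of divisors, and the dimension of this span is the multiplicity
of `q` as a root of the characteristic polynomial of `F^*` on `H^2(X)`. -/
def Tate : Prop := (∀ x, X.frob x = X.scale 1 x → X.InD 1 x) ∧ X.picard = X.mult

/-- The linear maps from `H^2(A)` to `H^2(S)`. -/
abbrev Hom (A S : Surface K) : Type w := A.V →ₗ[K] S.V

/-- `f(x)` -/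
def ap {A S : Surface K} (f : Hom A S) (x : A.V) : S.V := f x

/-- The properties of the pullback by a morphism from `S` to `A ⊗ k'`, where `S` is defined over the
extension `k'` of degree `a` of the field of definition of `A`; `f` is the pullback on `H^2` and `f'`
is the pullback on the even cohomology rings: compatibility with the Frobenius morphisms and with
divisors, and the projection formula for divisors. -/
structure IsPull {A S : Surface K} (f : Hom A S) (f' : Coh.Hom A.C S.C) (a : ℕ) : Prop where
  field : S.q = A.q ^ a
  incl : ∀ x, S.incl (ap f x) = Coh.ap f' (A.incl x)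
  frob : ∀ x, ap f (A.frob^[a] x) = S.frob (ap f x)
  divisors : ∀ x, A.InD a x → S.InD 1 (ap f x)
  push : ∀ y, S.InD 1 y → ∃ x, A.InD a x ∧ ∀ z, S.pair y (ap f z) = A.pair x z

/-- The trace of the exterior product of two classes on `A × B` is the product of the traces; `Z` is the
even cohomology ring of `A × B`, and `p`, `p'` are the pullbacks by the projections. -/
def Kunneth {A B : Surface K} {Z : Coh K} (p : Coh.Hom A.C Z) (p' : Coh.Hom B.C Z) : Prop :=
  ∀ x y, Z.trace (Z.mul (Coh.ap p x) (Coh.ap p' y)) = A.C.trace x * B.C.trace y

/-- `S` is a surface in a variety with the even cohomology ring `Z`, its cycle class is the square of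
`h`, and the very ample class of `S` is the restriction of `h`; `i` is the pullback by the
embedding of `S`. -/
def Section {S : Surface K} {Z : Coh K} (i : Coh.Hom Z S.C) (h : Z.R) : Prop :=
  (∀ z, S.C.trace (Coh.ap i z) = Z.trace (Z.mul z (Z.mul h h))) ∧ S.incl S.h = Coh.ap i h

/-- The properties of a surface `S` which is over a common extension of degrees `a` and `b` of the fields
of definition of `A` and `B` the intersection of two members of the linear system `|h_A + h_B|` on
`A × B`, with the restriction of `h_A + h_B`: there are the even cohomology ring of `A × B` with the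
pullbacks by the projections, and the pullbacks by the embedding of `S` and by the morphisms from `S`
to `A` and to `B`. -/
def IsIntersection (A B S : Surface K) (a b : ℕ) : Prop :=
  ∃ (Z : Coh K) (p : Coh.Hom A.C Z) (p' : Coh.Hom B.C Z) (i : Coh.Hom Z S.C) (f : Hom A S)
    (g : Hom B S), Kunneth p p' ∧ Section i (Coh.ap₂ p p' (A.incl A.h) (B.incl B.h)) ∧
      IsPull f (i.comp p) a ∧ IsPull g (i.comp p') b

end Surface

/-- A class `𝔖` of smooth projective surfaces over finite fields with a very ample divisor class. -/
structure Theory (𝔖 : Type u) (K : Type w) [Field K] where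
  /-- the data of the surface -/
  coh : 𝔖 → Surface K
  /-- `inter A B S a b`: the fields of definition of `A` and `B` have a common extension, of degree `a`
  and `b`, such that `S` is the intersection of two members of the linear system `|h_A + h_B|` on
  `A × B` over this extension and the very ample class of `S` is the restriction of `h_A + h_B`. -/
  inter : 𝔖 → 𝔖 → 𝔖 → ℕ → ℕ → Prop

namespace Theory

variable {𝔖 : Type u} {K : Type w} [Field K] (T : Theory 𝔖 K)

/-- The known properties which are used. -/
structure IsTheory : Prop where
  surface : ∀ X, (T.coh X).IsSurface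
  inter : ∀ A B S a b, T.inter A B S a b → (T.coh A).IsIntersection (T.coh B) (T.coh S) a b

/-- A class of polarized surfaces which contains with `A` and `B` a smooth complete intersection in
`A × B` as above. The theorem of Bertini shows that this is the case for the class of all polarized
surfaces over the finite extensions of a finite field. -/
def IsClosed (P : 𝔖 → Prop) : Prop :=
  ∀ A B, P A → P B → ∃ (S : 𝔖) (a b : ℕ), P S ∧ 1 ≤ a ∧ 1 ≤ b ∧ T.inter A B S a b

/-- The Tate conjecture for the divisors on `X`. -/
def Tate (X : 𝔖) : Prop := (T.coh X).Tate

/-- The degree of `X`. -/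
def deg (X : 𝔖) : ℕ := (T.coh X).deg

/-- The defect of `X`. -/
noncomputable def defect (X : 𝔖) : ℝ := (T.coh X).defect

/-- The defects of the surfaces in `P` are at most `ε log (deg X) + C`. -/
def DefectBound (P : 𝔖 → Prop) (ε C : ℝ) : Prop :=
  ∀ X, P X → T.defect X ≤ ε * Real.log (T.deg X) + C

end Theory

end Pool.Agent.T6.H15.TD
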