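import Pool.Agent.T6.H15.TD.Defs

/-!
# The Tate conjecture for divisors and complete intersections in products of surfaces: proofs
-/

universe u w

open Module

namespace Pool.Agent.T6.H15.TD

section LinearAlgebra

variable {K : Type w} [Field K]

theorem finrank_le {U V : Type*} [AddCommGroup U] [Module K U] [AddCommGroup V] [Module K V]
    [FiniteDimensional K U] [FiniteDimensional K V] (φ : U →ₗ[K] V) {W D : Submodule K U}
    {W' D' : Submodule K V} (h1 : ∀ x ∈ W, φ x ∈ W') (hD' : D' ≤ W')
    (h2 : ∀ x ∈ W, φ x ∈ D' → x ∈ D) :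
    finrank K W + finrank K D' ≤ finrank K W' + finrank K D := by
  let ψ : W →ₗ[K] V ⧸ D' := D'.mkQ ∘ₗ φ ∘ₗ W.subtype
  have e1 := LinearMap.finrank_range_add_finrank_ker ψ
  have e2 : finrank K ψ.ker ≤ finrank K D := by
    have hmem : ∀ y : ψ.ker, ((y : W) : U) ∈ D := by
      intro y
      have hy : ψ (y : W) = 0 := y.2
      apply h2 _ (y : W).2
      have : D'.mkQ (φ ((y : W) : U)) = 0 := hy
      rwa [Submodule.mkQ_apply, Submodule.Quotient.mk_eq_zero] at this
    let θ : ψ.ker →ₗ[K] D := LinearMap.codRestrict D (W.subtype ∘ₗ ψ.ker.subtype) hmem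
    apply LinearMap.finrank_le_finrank_of_injective (f := θ)
    intro y z hyz
    have : ((θ y : D) : U) = ((θ z : D) : U) := by rw [hyz]
    exact Subtype.ext (Subtype.ext this)
  have e3 : finrank K ψ.range ≤ finrank K (W'.map D'.mkQ) := by
    apply Submodule.finrank_mono
    rintro _ ⟨x, rfl⟩
    exact ⟨φ x, h1 _ x.2, rfl⟩
  have e4 : finrank K (W'.map D'.mkQ) + finrank K D' ≤ finrank K W' := by
    have e5 := LinearMap.finrank_range_add_finrank_ker (D'.mkQ.domRestrict W')
    have e6 : LinearMap.range (D'.mkQ.domRestrict W') = W'.map D'.mkQ := by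
      rw [LinearMap.range_domRestrict]
    have e7 : finrank K D' ≤ finrank K (LinearMap.ker (D'.mkQ.domRestrict W')) := by
      have hmem : ∀ y : D', (⟨(y : V), hD' y.2⟩ : W') ∈ LinearMap.ker (D'.mkQ.domRestrict W') := by
        intro y
        rw [LinearMap.mem_ker, LinearMap.domRestrict_apply, Submodule.mkQ_apply,
          Submodule.Quotient.mk_eq_zero]
        exact y.2
      let θ : D' →ₗ[K] LinearMap.ker (D'.mkQ.domRestrict W') :=
        LinearMap.codRestrict _ (Submodule.inclusion hD') hmem
      apply LinearMap.finrank_le_finrank_of_injective (f := θ)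
      intro y z hyz
      have : (((θ y : LinearMap.ker (D'.mkQ.domRestrict W')) : W') : V) =
        (((θ z : LinearMap.ker (D'.mkQ.domRestrict W')) : W') : V) := by rw [hyz]
      exact Subtype.ext this
    rw [e6] at e5
    omega
  omega

/-- The product of two submodules. -/
def prodEquiv' {U V : Type*} [AddCommGroup U] [Module K U] [AddCommGroup V] [Module K V]
    (W : Submodule K U) (W' : Submodule K V) : (W.prod W') ≃ₗ[K] (W × W') where
  toFun x := (⟨x.1.1, x.2.1⟩, ⟨x.1.2, x.2.2⟩)
  invFun y := ⟨(y.1, y.2), y.1.2, y.2.2⟩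
  map_add' _ _ := rfl
  map_smul' _ _ := rfl
  left_inv _ := rfl
  right_inv _ := rfl

theorem finrank_prod' {U V : Type*} [AddCommGroup U] [Module K U] [AddCommGroup V] [Module K V]
    [FiniteDimensional K U] [FiniteDimensional K V] (W : Submodule K U) (W' : Submodule K V) :
    finrank K (W.prod W') = finrank K W + finrank K W' := by
  rw [LinearEquiv.finrank_eq (prodEquiv' W W'), Module.finrank_prod]

variable {V : Type*} [AddCommGroup V] [Module K V]

/-- `∑ F^i q^(n-1-i)` -/
noncomputable def geom (F : End K V) (q : K) (n : ℕ) : End K V :=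
  ∑ i ∈ Finset.range n, F ^ i * (q • (1 : End K V)) ^ (n - 1 - i)

theorem commute_smul_one (F : End K V) (q : K) : Commute F (q • (1 : End K V)) := by
  show F * (q • 1) = (q • 1) * F
  simp

theorem smul_one_pow (q : K) (n : ℕ) : (q • (1 : End K V)) ^ n = (q ^ n) • 1 := by
  rw [smul_pow, one_pow]

theorem geom_mul (F : End K V) (q : K) (n : ℕ) :
    geom F q n * (F - q • 1) = F ^ n - (q ^ n) • (1 : End K V) := by
  unfold geom
  rw [(commute_smul_one F q).geom_sum₂_mul, smul_one_pow]

theorem geom_commute (F : End K V) (q : K) (n : ℕ) : Commute (F - q • 1) (geom F q n) := by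
  unfold geom
  apply Commute.sum_right
  intro i _
  apply Commute.mul_right
  · exact ((Commute.refl F).sub_left (commute_smul_one F q).symm).pow_right i
  · exact ((commute_smul_one F q).sub_left (Commute.refl _)).pow_right _

theorem geom_apply {F : End K V} {q : K} {x : V} (hx : F x = q • x) (n : ℕ) :
    geom F q n x = ((n : K) * q ^ (n - 1)) • x := by
  have hpow : ∀ i : ℕ, (F ^ i) x = (q ^ i) • x := by
    intro i
    induction i with
    | zero => simp
    | succ i ih => rw [pow_succ', Module.End.mul_apply, ih, map_smul, hx, smul_smul, pow_succ]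
  unfold geom
  rw [LinearMap.sum_apply]
  have : ∀ i ∈ Finset.range n, (F ^ i * (q • (1 : End K V)) ^ (n - 1 - i)) x = (q ^ (n - 1)) • x := by
    intro i hi
    rw [smul_one_pow, Module.End.mul_apply, LinearMap.smul_apply, Module.End.one_apply, map_smul,
      hpow, smul_smul, ← pow_add]
    congr 2
    have := Finset.mem_range.1 hi
    omega
  rw [Finset.sum_congr rfl this, Finset.sum_const, Finset.card_range, mul_smul, Nat.cast_smul_eq_nsmul]

/-- A generalized eigenvector `x` of `F` for the eigenvalue `q` with `F^n x = q^n x` is an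
eigenvector. -/
theorem eigen_of_pow [CharZero K] {F : End K V} {q : K} (hq : q ≠ 0) {n : ℕ} (hn : 1 ≤ n) {x : V}
    (hx : x ∈ F.maxGenEigenspace q) (hxn : (F ^ n) x = (q ^ n) • x) : F x = q • x := by
  have hc : (n : K) * q ^ (n - 1) ≠ 0 :=
    mul_ne_zero (Nat.cast_ne_zero.2 (by omega)) (pow_ne_zero _ hq)
  have key : ∀ (k : ℕ) (y : V), ((F - q • 1) ^ k) y = 0 → geom F q n y = 0 → y = 0 := by
    intro k
    induction k with
    | zero => intro y hy _; simpa using hy
    | succ k ih =>
      intro y hy hg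
      have h1 : (F - q • 1) y = 0 := by
        apply ih
        · rw [← Module.End.mul_apply, ← pow_succ]; exact hy
        · rw [← Module.End.mul_apply, ← (geom_commute F q n).eq, Module.End.mul_apply, hg, map_zero]
      have h2 : F y = q • y := by
        rw [LinearMap.sub_apply, LinearMap.smul_apply, Module.End.one_apply, sub_eq_zero] at h1
        exact h1
      rw [geom_apply h2] at hg
      exact (smul_eq_zero.1 hg).resolve_left hc
  rw [Module.End.mem_maxGenEigenspace] at hx
  obtain ⟨k, hk⟩ := hx
  have h3 : (F - q • 1) x = 0 := by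
    apply key k
    · rw [← Module.End.mul_apply, ← pow_succ, pow_succ', Module.End.mul_apply, hk, map_zero]
    · rw [← Module.End.mul_apply, geom_mul, LinearMap.sub_apply, hxn, LinearMap.smul_apply,
        Module.End.one_apply, sub_self]
  rwa [LinearMap.sub_apply, LinearMap.smul_apply, Module.End.one_apply, sub_eq_zero] at h3

/-- A linear map `f` with `f F^n = F' f` maps generalized eigenvectors for `q` to generalized
eigenvectors for `q^n`. -/
theorem map_maxGen {V' : Type*} [AddCommGroup V'] [Module K V'] {F : End K V} {F' : End K V'}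
    {q : K} {n : ℕ} {f : V →ₗ[K] V'} (hf : ∀ x, f ((F ^ n) x) = F' (f x)) {x : V}
    (hx : x ∈ F.maxGenEigenspace q) : f x ∈ F'.maxGenEigenspace (q ^ n) := by
  rw [Module.End.mem_maxGenEigenspace] at hx ⊢
  obtain ⟨k, hk⟩ := hx
  refine ⟨k, ?_⟩
  have h1 : ∀ y, f ((F ^ n - (q ^ n) • (1 : End K V)) y) = (F' - (q ^ n) • (1 : End K V')) (f y) := by
    intro y
    simp only [LinearMap.sub_apply, LinearMap.smul_apply, Module.End.one_apply, map_sub, map_smul, hf]
  have h2 : ∀ (j : ℕ) (y : V), f (((F ^ n - (q ^ n) • (1 : End K V)) ^ j) y) =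
      ((F' - (q ^ n) • (1 : End K V')) ^ j) (f y) := by
    intro j
    induction j with
    | zero => intro y; simp
    | succ j ih =>
      intro y
      rw [pow_succ, Module.End.mul_apply, ih, h1, pow_succ, Module.End.mul_apply]
  rw [← h2, ← geom_mul, ((geom_commute F q n).symm).mul_pow, Module.End.mul_apply, hk, map_zero,
    map_zero]

end LinearAlgebra

namespace Surface

variable {K : Type w} [Field K]

/-- the generalized eigenspace -/
noncomputable def gen (X : Surface K) : Submodule K X.V :=
  Module.End.maxGenEigenspace X.F (X.q : K)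

theorem finrank_gen (X : Surface K) : finrank K X.gen = X.mult :=
  LinearMap.finrank_maxGenEigenspace_eq _ _

theorem iterate_frob (X : Surface K) (n : ℕ) (x : X.V) : X.frob^[n] x = (X.F ^ n) x := by
  rw [Module.End.pow_apply]
  rfl

theorem scale_one (X : Surface K) (x : X.V) : X.scale 1 x = (X.q : K) • x := by
  unfold scale
  rw [pow_one]

section Surf

variable {X : Surface K}

theorem D_eigen (hX : X.IsSurface) {x : X.V} (hx : x ∈ X.D 1) : X.F x = (X.q : K) • x := by
  have := hX.frobenius 1 le_rfl x hx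
  rw [scale_one] at this
  exact this

theorem D_le_gen (hX : X.IsSurface) : X.D 1 ≤ X.gen := by
  intro x hx
  unfold gen
  rw [Module.End.mem_maxGenEigenspace]
  exact ⟨1, by rw [pow_one, LinearMap.sub_apply, D_eigen hX hx]; simp⟩

theorem picard_le_mult (hX : X.IsSurface) : X.picard ≤ X.mult := by
  rw [← finrank_gen]
  exact Submodule.finrank_mono (D_le_gen hX)

theorem tate_of_eq (hX : X.IsSurface) (h : X.mult ≤ X.picard) : X.Tate := by
  have h1 : X.picard = X.mult := le_antisymm (picard_le_mult hX) h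
  have h2 : X.D 1 = X.gen :=
    Submodule.eq_of_le_of_finrank_eq (D_le_gen hX) (by rw [finrank_gen, ← h1]; rfl)
  refine ⟨fun x hx => ?_, h1⟩
  show x ∈ X.D 1
  rw [h2]
  unfold gen
  rw [Module.End.mem_maxGenEigenspace]
  rw [scale_one] at hx
  have hx' : X.F x = (X.q : K) • x := hx
  exact ⟨1, by rw [pow_one, LinearMap.sub_apply, hx']; simp⟩

theorem incl_add (X : Surface K) (x y : X.V) : X.incl (x + y) = X.incl x + X.incl y :=
  map_add X.emb x y

theorem incl_smul (X : Surface K) (c : K) (x : X.V) : X.incl (c • x) = c • X.incl x :=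
  map_smul X.emb c x

theorem pair_comm (X : Surface K) (x y : X.V) : X.pair x y = X.pair y x := by
  unfold pair Coh.mul
  rw [mul_comm]

theorem pair_add (X : Surface K) (x y z : X.V) : X.pair (x + y) z = X.pair x z + X.pair y z := by
  unfold pair Coh.mul Coh.trace
  rw [incl_add, add_mul, map_add]

theorem pair_smul (X : Surface K) (c : K) (x z : X.V) : X.pair (c • x) z = c * X.pair x z := by
  unfold pair Coh.mul Coh.trace
  rw [incl_smul, smul_mul_assoc, map_smul, smul_eq_mul]

theorem deg_ne (hX : X.IsSurface) [CharZero K] : (X.deg : K) ≠ 0 :=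
  Nat.cast_ne_zero.2 (by have := hX.deg_pos; omega)

theorem q_ne (hX : X.IsSurface) [CharZero K] : (X.q : K) ≠ 0 :=
  Nat.cast_ne_zero.2 (by have := hX.two_le; omega)

theorem vanish' (hX : X.IsSurface) (x y z : X.V) : X.incl x * X.incl y * X.incl z = 0 :=
  hX.vanish x y z

theorem degree' (hX : X.IsSurface) : X.C.tr (X.incl X.h * X.incl X.h) = X.deg := hX.degree

end Surf

section Square

variable {A B S : Surface K} {Z : Coh K} {p : Coh.Hom A.C Z} {p' : Coh.Hom B.C Z}
  {i : Coh.Hom Z S.C}

/-- the class `h_A + h_B` -/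
def pol (p : Coh.Hom A.C Z) (p' : Coh.Hom B.C Z) : Z.R :=
  Coh.ap₂ p p' (A.incl A.h) (B.incl B.h)

theorem pol_sq (z : Z.R) : z * (pol p p' * pol p p') =
    z * p (A.incl A.h) * p (A.incl A.h) + (2 : ℕ) • (z * p (A.incl A.h) * p' (B.incl B.h)) +
      z * p' (B.incl B.h) * p' (B.incl B.h) := by
  unfold pol Coh.ap₂ Coh.ap
  rw [nsmul_eq_mul]
  push_cast
  ring

theorem kun (hk : Kunneth p p') (x : A.C.R) (y : B.C.R) :
    Z.tr (p x * p' y) = A.C.tr x * B.C.tr y := hk x y

theorem gys (hi : Section i (pol p p')) (z : Z.R) :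
    S.C.tr (i z) = Z.tr (z * (pol p p' * pol p p')) := hi.1 z

/-- `(f x · f y) = deg B (x · y)` -/
theorem pair_ff (hA : A.IsSurface) (hB : B.IsSurface) (hk : Kunneth p p')
    (hi : Section i (pol p p')) (x y : A.V) :
    S.C.tr (i (p (A.incl x)) * i (p (A.incl y))) = (B.deg : K) * A.pair x y := by
  rw [← map_mul, ← map_mul, gys hi, pol_sq]
  have h0 : p (A.incl x * A.incl y) * p (A.incl A.h) = 0 := by
    rw [← map_mul, vanish' hA, map_zero]
  have h1 : p (A.incl x * A.incl y) * p' (B.incl B.h) * p' (B.incl B.h) =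
      p (A.incl x * A.incl y) * p' (B.incl B.h * B.incl B.h) := by
    rw [map_mul p', mul_assoc]
  rw [h0, zero_mul, zero_mul, nsmul_zero, zero_add, zero_add, h1, kun hk, degree' hB, mul_comm]
  rfl

/-- `(g x · g y) = deg A (x · y)` -/
theorem pair_gg (hA : A.IsSurface) (hB : B.IsSurface) (hk : Kunneth p p')
    (hi : Section i (pol p p')) (x y : B.V) :
    S.C.tr (i (p' (B.incl x)) * i (p' (B.incl y))) = (A.deg : K) * B.pair x y := by
  rw [← map_mul, ← map_mul, gys hi, pol_sq]
  have h0 : p' (B.incl x * B.incl y) * p' (B.incl B.h) = 0 := by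
    rw [← map_mul, vanish' hB, map_zero]
  have h1 : p' (B.incl x * B.incl y) * p (A.incl A.h) * p' (B.incl B.h) = 0 := by
    rw [mul_right_comm, h0, zero_mul]
  have h2 : p' (B.incl x * B.incl y) * p (A.incl A.h) * p (A.incl A.h) =
      p (A.incl A.h * A.incl A.h) * p' (B.incl x * B.incl y) := by
    rw [map_mul p]
    ring
  rw [h0, h1, zero_mul, nsmul_zero, add_zero, add_zero, h2, kun hk, degree' hA]
  rfl

/-- `(f x · g y) = 2 (x · h_A) (y · h_B)` -/
theorem pair_fg (hA : A.IsSurface) (hB : B.IsSurface) (hk : Kunneth p p')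
    (hi : Section i (pol p p')) (x : A.V) (y : B.V) :
    S.C.tr (i (p (A.incl x)) * i (p' (B.incl y))) = 2 * (A.pair x A.h * B.pair y B.h) := by
  rw [← map_mul, gys hi, pol_sq]
  have h0 : p (A.incl x) * p' (B.incl y) * p (A.incl A.h) * p (A.incl A.h) = 0 := by
    have : p (A.incl x * A.incl A.h * A.incl A.h) = 0 := by
      rw [vanish' hA, map_zero]
    rw [map_mul, map_mul] at this
    linear_combination p' (B.incl y) * this
  have h1 : p (A.incl x) * p' (B.incl y) * p' (B.incl B.h) * p' (B.incl B.h) = 0 := by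
    have : p' (B.incl y * B.incl B.h * B.incl B.h) = 0 := by
      rw [vanish' hB, map_zero]
    rw [map_mul, map_mul] at this
    linear_combination p (A.incl x) * this
  have h2 : p (A.incl x) * p' (B.incl y) * p (A.incl A.h) * p' (B.incl B.h) =
      p (A.incl x * A.incl A.h) * p' (B.incl y * B.incl B.h) := by
    rw [map_mul p, map_mul p']
    ring
  rw [h0, h1, zero_add, add_zero, h2, map_nsmul, kun hk, nsmul_eq_mul]
  push_cast
  rfl

/-- `deg S = 6 deg A deg B` -/
theorem degree_inter [CharZero K] (hA : A.IsSurface) (hB : B.IsSurface) (hS : S.IsSurface)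
    (hk : Kunneth p p') (hi : Section i (pol p p')) : S.deg = 6 * A.deg * B.deg := by
  have h1 := degree' hS
  have h2 : S.C.tr (S.incl S.h * S.incl S.h) =
      S.C.tr (i (p (A.incl A.h)) * i (p (A.incl A.h))) +
        2 * S.C.tr (i (p (A.incl A.h)) * i (p' (B.incl B.h))) +
        S.C.tr (i (p' (B.incl B.h)) * i (p' (B.incl B.h))) := by
    have h3 : S.incl S.h * S.incl S.h =
        i (p (A.incl A.h)) * i (p (A.incl A.h)) +
        (2 : K) • (i (p (A.incl A.h)) * i (p' (B.incl B.h))) +
        i (p' (B.incl B.h)) * i (p' (B.incl B.h)) := by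
      rw [hi.2]
      unfold pol Coh.ap₂ Coh.ap
      rw [map_add, two_smul]
      ring
    rw [h3, map_add, map_add, map_smul, smul_eq_mul]
  rw [h1, pair_ff hA hB hk hi, pair_fg hA hB hk hi, pair_gg hA hB hk hi, hA.degree, hB.degree] at h2
  have h4 : ((S.deg : ℕ) : K) = ((6 * A.deg * B.deg : ℕ) : K) := by
    rw [h2]
    push_cast
    ring
  exact_mod_cast h4

end Square

/-- The main inequality. -/
theorem mult_inter [CharZero K] {A B S : Surface K} {a b : ℕ} (hA : A.IsSurface)
    (hB : B.IsSurface) (hS : S.IsSurface) (ha : 1 ≤ a) (hb : 1 ≤ b)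
    (h : IsIntersection A B S a b) :
    (A.mult + B.mult) + S.picard ≤ S.mult + (A.picard + B.picard) ∧
      S.deg = 6 * A.deg * B.deg := by
  obtain ⟨Z, p, p', i, f, g, hk, hi, hf, hg⟩ := h
  have hi' : Section i (pol p p') := hi
  refine ⟨?_, degree_inter hA hB hS hk hi'⟩
  have hpf : ∀ x y : A.V, S.pair (f x) (f y) = (B.deg : K) * A.pair x y := by
    intro x y
    rw [← pair_ff hA hB hk hi']
    have h1 := hf.incl x
    have h2 := hf.incl y
    unfold ap Coh.ap at h1 h2
    unfold pair Coh.mul Coh.trace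
    rw [h1, h2]
    rfl
  have hpg : ∀ x y : B.V, S.pair (g x) (g y) = (A.deg : K) * B.pair x y := by
    intro x y
    rw [← pair_gg hA hB hk hi']
    have h1 := hg.incl x
    have h2 := hg.incl y
    unfold ap Coh.ap at h1 h2
    unfold pair Coh.mul Coh.trace
    rw [h1, h2]
    rfl
  have hpfg : ∀ (x : A.V) (y : B.V), S.pair (f x) (g y) =
      2 * (A.pair x A.h * B.pair y B.h) := by
    intro x y
    rw [← pair_fg hA hB hk hi']
    have h1 := hf.incl x
    have h2 := hg.incl y
    unfold ap Coh.ap at h1 h2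
    unfold pair Coh.mul Coh.trace
    rw [h1, h2]
    rfl
  have hdA := deg_ne hA
  have hdB := deg_ne hB
  -- a sum in the span of the divisors has both components in the span of the divisors
  have hback : ∀ (x : A.V) (y : B.V), f x + g y ∈ S.D 1 → x ∈ A.D a ∧ y ∈ B.D b := by
    intro x y hxy
    constructor
    · obtain ⟨z, hz, hzp⟩ := hf.push _ hxy
      have h1 : (B.deg : K) • x + (2 * B.pair y B.h) • A.h + (-1 : K) • z = 0 := by
        apply hA.duality
        intro w
        have h2 := hzp w
        change S.pair (f x + g y) (f w) = _ at h2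
        rw [pair_add, hpf, S.pair_comm (g y), hpfg] at h2
        rw [pair_add, pair_add, pair_smul, pair_smul, pair_smul, ← h2, A.pair_comm w]
        ring
      have h3 : x = ((B.deg : K)⁻¹) • (z - (2 * B.pair y B.h) • A.h) := by
        rw [eq_inv_smul_iff₀ hdB]
        have h4 : (B.deg : K) • x + (2 * B.pair y B.h) • A.h = z := by
          have h5 : (B.deg : K) • x + (2 * B.pair y B.h) • A.h =
            ((B.deg : K) • x + (2 * B.pair y B.h) • A.h + (-1 : K) • z) + z := by module
          rw [h5, h1, zero_add]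
        rw [← h4, add_sub_cancel_right]
      rw [h3]
      exact (A.D a).smul_mem _ ((A.D a).sub_mem hz
        ((A.D a).smul_mem _ (hA.extension a ha _ hA.polarization)))
    · obtain ⟨z, hz, hzp⟩ := hg.push _ hxy
      have h1 : (A.deg : K) • y + (2 * A.pair x A.h) • B.h + (-1 : K) • z = 0 := by
        apply hB.duality
        intro w
        have h2 := hzp w
        change S.pair (f x + g y) (g w) = _ at h2
        rw [pair_add, hpfg, hpg] at h2
        rw [pair_add, pair_add, pair_smul, pair_smul, pair_smul, ← h2, B.pair_comm w]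
        ring
      have h3 : y = ((A.deg : K)⁻¹) • (z - (2 * A.pair x A.h) • B.h) := by
        rw [eq_inv_smul_iff₀ hdA]
        have h4 : (A.deg : K) • y + (2 * A.pair x A.h) • B.h = z := by
          have h5 : (A.deg : K) • y + (2 * A.pair x A.h) • B.h =
            ((A.deg : K) • y + (2 * A.pair x A.h) • B.h + (-1 : K) • z) + z := by module
          rw [h5, h1, zero_add]
        rw [← h4, add_sub_cancel_right]
      rw [h3]
      exact (B.D b).smul_mem _ ((B.D b).sub_mem hz
        ((B.D b).smul_mem _ (hB.extension b hb _ hB.polarization)))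
  have hdesc : ∀ {X : Surface K} {n : ℕ} (hX : X.IsSurface) (hn : 1 ≤ n) (x : X.V),
      x ∈ X.gen → x ∈ X.D n → x ∈ X.D 1 := by
    intro X n hX hn x hx hxn
    refine hX.descent n hn x hxn ?_
    rw [scale_one]
    refine eigen_of_pow (q_ne hX) hn hx ?_
    rw [← iterate_frob]
    exact hX.frobenius n hn x hxn
  have hmain := finrank_le (f.coprod g) (W := (A.gen).prod (B.gen))
    (D := (A.D 1).prod (B.D 1)) (W' := S.gen) (D' := S.D 1)
    (by
      rintro ⟨x, y⟩ ⟨hx, hy⟩
      rw [LinearMap.coprod_apply]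
      apply Submodule.add_mem
      · have := map_maxGen (F := A.F) (F' := S.F) (n := a) (f := f)
          (fun x => by rw [← iterate_frob]; exact hf.frob x) hx
        unfold gen
        rw [hf.field]
        push_cast
        exact this
      · have := map_maxGen (F := B.F) (F' := S.F) (n := b) (f := g)
          (fun x => by rw [← iterate_frob]; exact hg.frob x) hy
        unfold gen
        rw [hg.field]
        push_cast
        exact this)
    (D_le_gen hS)
    (by
      rintro ⟨x, y⟩ ⟨hx, hy⟩ hxy
      rw [LinearMap.coprod_apply] at hxy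
      obtain ⟨h1, h2⟩ := hback x y hxy
      exact ⟨hdesc hA ha x hx h1, hdesc hB hb y hy h2⟩)
  rw [finrank_prod', finrank_prod', finrank_gen, finrank_gen, finrank_gen] at hmain
  exact hmain

end Surface

namespace Theory

variable {𝔖 : Type u} {K : Type w} [Field K] {T : Theory 𝔖 K}

theorem one_le_defect (hT : T.IsTheory) {X : 𝔖} (h : ¬ T.Tate X) : 1 ≤ T.defect X := by
  have h1 : (T.coh X).picard + 1 ≤ (T.coh X).mult := by
    by_contra hc
    exact h (Surface.tate_of_eq (hT.surface X) (by omega))
  have h2 : ((T.coh X).picard : ℝ) + 1 ≤ (T.coh X).mult := by exact_mod_cast h1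
  unfold defect Surface.defect
  linarith

theorem defect_of_tate {X : 𝔖} (h : T.Tate X) : T.defect X = 0 := by
  unfold defect Surface.defect
  rw [h.2, sub_self]

theorem defect_inter [CharZero K] (hT : T.IsTheory) {A B S : 𝔖} {a b : ℕ} (ha : 1 ≤ a) (hb : 1 ≤ b)
    (h : T.inter A B S a b) : T.defect A + T.defect B ≤ T.defect S := by
  have h1 := (Surface.mult_inter (hT.surface A) (hT.surface B) (hT.surface S) ha hb
    (hT.inter A B S a b h)).1
  have h2 : (((T.coh A).mult : ℝ) + (T.coh B).mult) + (T.coh S).picard ≤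
      (T.coh S).mult + ((T.coh A).picard + (T.coh B).picard) := by
    exact_mod_cast h1
  unfold defect Surface.defect
  linarith

/-- A surface `Y` in `P` gives surfaces in `P` with defect `≥ n · defect Y` and degree
`6^(n-1) (deg Y)^n`. -/
theorem chain [CharZero K] (hT : T.IsTheory) {P : 𝔖 → Prop} (hP : T.IsClosed P) {Y : 𝔖} (hY : P Y)
    (n : ℕ) : ∃ S, P S ∧ (n + 1 : ℝ) * T.defect Y ≤ T.defect S ∧
      T.deg S = 6 ^ n * T.deg Y ^ (n + 1) := by
  induction n with
  | zero => exact ⟨Y, hY, by simp, by simp⟩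
  | succ n ih =>
    obtain ⟨A, hA, h1, h2⟩ := ih
    obtain ⟨S, a, b, hS, ha, hb, h⟩ := hP A Y hA hY
    refine ⟨S, hS, ?_, ?_⟩
    · have h3 := defect_inter hT ha hb h
      push_cast
      linarith
    · have h3 : T.deg S = 6 * T.deg A * T.deg Y :=
        (Surface.mult_inter (hT.surface A) (hT.surface Y) (hT.surface S) ha hb
          (hT.inter A Y S a b h)).2
      rw [h3, h2]
      ring

theorem one_le_deg (hT : T.IsTheory) (X : 𝔖) : (1 : ℝ) ≤ T.deg X := by
  exact_mod_cast (hT.surface X).deg_pos

/-- If the defects are at most `ε log (deg X) + C` then the Tate conjecture is true for the `Y` with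
`ε log (6 deg Y) < 1`. -/
theorem tate_of_bound [CharZero K] (hT : T.IsTheory) {P : 𝔖 → Prop} (hP : T.IsClosed P) {ε C : ℝ}
    (hε : 0 ≤ ε) (h : T.DefectBound P ε C) {Y : 𝔖} (hY : P Y)
    (hlt : ε * Real.log (6 * T.deg Y) < 1) : T.Tate Y := by
  by_contra hc
  have h1 := one_le_defect hT hc
  have hd := one_le_deg hT Y
  set L := Real.log (6 * T.deg Y) with hL
  obtain ⟨n, hn⟩ := exists_nat_gt (C / (1 - ε * L))
  have hpos : 0 < 1 - ε * L := by linarith
  rw [div_lt_iff₀ hpos] at hn
  obtain ⟨S, hS, h2, h3⟩ := chain hT hP hY n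
  have h4 := h S hS
  have h5 : Real.log (T.deg S) ≤ (n + 1) * L := by
    have h6 : (T.deg S : ℝ) ≤ (6 * T.deg Y) ^ (n + 1) := by
      rw [h3]
      push_cast
      rw [mul_pow]
      apply mul_le_mul_of_nonneg_right _ (by positivity)
      exact pow_le_pow_right₀ (by norm_num) (Nat.le_succ n)
    have h7 : (0 : ℝ) < T.deg S := by
      have := one_le_deg hT S
      linarith
    have h8 := Real.log_le_log h7 h6
    rw [Real.log_pow] at h8
    push_cast at h8
    exact h8
  have h9 : ((n : ℝ) + 1) ≤ (n + 1) * T.defect Y := by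
    nlinarith [(Nat.cast_nonneg n : (0 : ℝ) ≤ n)]
  have h10 : ε * Real.log (T.deg S) ≤ ε * ((n + 1) * L) := mul_le_mul_of_nonneg_left h5 hε
  nlinarith

theorem main [CharZero K] (hT : T.IsTheory) {P : 𝔖 → Prop} (hP : T.IsClosed P) :
    (∀ X, P X → T.Tate X) ↔ ∀ ε : ℝ, 0 < ε → ∃ C, T.DefectBound P ε C := by
  constructor
  · intro h ε hε
    refine ⟨0, fun X hX => ?_⟩
    rw [defect_of_tate (h X hX)]
    have := Real.log_nonneg (one_le_deg hT X)
    positivity
  · intro h Y hY
    have hd := one_le_deg hT Y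
    set L := Real.log (6 * T.deg Y) with hL
    have hLpos : 0 < L := Real.log_pos (by linarith)
    obtain ⟨C, hC⟩ := h (1 / (2 * L)) (by positivity)
    refine tate_of_bound hT hP (by positivity) hC hY ?_
    rw [← hL]
    field_simp
    norm_num

end Theory

end Pool.Agent.T6.H15.TD
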